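import Pool.Agent.P8H72.JF.Stm1

/-!
# Project JF, part STA
-/

set_option autoImplicit false
set_option linter.all false

namespace Pool.Agent.P8H59.JF

open Matrix
open Pool.Agent.P8H72.JF

theorem fix_mul {g : ℕ} {J : Set (Fin g)} {A B : Mat g} (hA : Fix J A) (hB : Fix J B) :
    Fix J (A * B) := by
  intro j hj x
  obtain ⟨hA1, hA2⟩ : (∀ x, A x (Sum.inl j) = (1 : Mat g) x (Sum.inl j)) ∧
      (∀ x, A x (Sum.inr j) = (1 : Mat g) x (Sum.inr j)) :=
    ⟨fun x => (hA j hj x).1, fun x => (hA j hj x).2⟩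
  have h1 : (A * B) x (Sum.inl j) = A x (Sum.inl j) := by
    rw [Matrix.mul_apply]
    have : ∀ y, A x y * B y (Sum.inl j) = A x y * (1 : Mat g) y (Sum.inl j) := fun y => by
      rw [(hB j hj y).1]
    rw [Finset.sum_congr rfl (fun y _ => this y), ← Matrix.mul_apply, Matrix.mul_one]
  have h2 : (A * B) x (Sum.inr j) = A x (Sum.inr j) := by
    rw [Matrix.mul_apply]
    have : ∀ y, A x y * B y (Sum.inr j) = A x y * (1 : Mat g) y (Sum.inr j) := fun y => by
      rw [(hB j hj y).2]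
    rw [Finset.sum_congr rfl (fun y _ => this y), ← Matrix.mul_apply, Matrix.mul_one]
  rw [h1, h2]
  exact hA j hj x

theorem fix_S {g : ℕ} {J : Set (Fin g)} {X : Matrix (Fin g) (Fin g) ℤ} (hX : Xᵀ = X)
    (h0 : ∀ i j, i ∈ J → X i j = 0) : Fix J (S X).1 := by
  intro j hj x
  have hX' : ∀ i, X i j = 0 := fun i => by
    rw [← hX]
    exact h0 j i hj
  rcases x with x | x
  · refine ⟨?_, ?_⟩
    · show (fromBlocks 1 X 0 1 : Mat g) (Sum.inl x) (Sum.inl j) = _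
      rw [fromBlocks_apply₁₁, Matrix.one_apply, Matrix.one_apply]
      simp
    · show (fromBlocks 1 X 0 1 : Mat g) (Sum.inl x) (Sum.inr j) = _
      rw [fromBlocks_apply₁₂, hX', Matrix.one_apply]
      simp
  · refine ⟨?_, ?_⟩
    · show (fromBlocks 1 X 0 1 : Mat g) (Sum.inr x) (Sum.inl j) = _
      rw [fromBlocks_apply₂₁, Matrix.one_apply]
      simp
    · show (fromBlocks 1 X 0 1 : Mat g) (Sum.inr x) (Sum.inr j) = _
      rw [fromBlocks_apply₂₂, Matrix.one_apply, Matrix.one_apply]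
      simp

theorem fix_T {g : ℕ} {J : Set (Fin g)} {X : Matrix (Fin g) (Fin g) ℤ} (hX : Xᵀ = X)
    (h0 : ∀ i j, i ∈ J → X i j = 0) : Fix J (T X).1 := by
  intro j hj x
  have hX' : ∀ i, X i j = 0 := fun i => by
    rw [← hX]
    exact h0 j i hj
  rcases x with x | x
  · refine ⟨?_, ?_⟩
    · show (fromBlocks 1 0 X 1 : Mat g) (Sum.inl x) (Sum.inl j) = _
      rw [fromBlocks_apply₁₁, Matrix.one_apply, Matrix.one_apply]
      simp
    · show (fromBlocks 1 0 X 1 : Mat g) (Sum.inl x) (Sum.inr j) = _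
      rw [fromBlocks_apply₁₂, Matrix.one_apply]
      simp
  · refine ⟨?_, ?_⟩
    · show (fromBlocks 1 0 X 1 : Mat g) (Sum.inr x) (Sum.inl j) = _
      rw [fromBlocks_apply₂₁, hX', Matrix.one_apply]
      simp
    · show (fromBlocks 1 0 X 1 : Mat g) (Sum.inr x) (Sum.inr j) = _
      rw [fromBlocks_apply₂₂, Matrix.one_apply, Matrix.one_apply]
      simp

/-- **STA** -/
theorem t_STA : S_STA := by
  intro hBAS hSYM hPRI hCOL g J k l hk hl hkl M N hM h2M hN A hA hC hF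
  obtain ⟨b1, b2, b3, b4, b5, b6, b7, b8⟩ := hBAS
  have h8 := b8 g J A.1 hA hF
  obtain ⟨a, ha⟩ : ∃ a : Fin g → ℤ, a = fun i => A.1 (Sum.inl i) (Sum.inl k) := ⟨_, rfl⟩
  obtain ⟨c, hc⟩ : ∃ c : Fin g → ℤ, c = fun i => A.1 (Sum.inr i) (Sum.inl k) := ⟨_, rfl⟩
  have ha0 : ∀ i, i ∉ Jᶜ → a i = 0 := by
    intro i hi
    rw [Set.mem_compl_iff, not_not] at hi
    rw [ha]
    simp only
    rw [(h8 i hi _).1, Matrix.one_apply, if_neg]
    intro h
    exact hk (by rw [← Sum.inl_injective h]; exact hi)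
  have hc0 : ∀ i, i ∉ Jᶜ → c i = 0 := by
    intro i hi
    rw [Set.mem_compl_iff, not_not] at hi
    rw [hc]
    simp only
    rw [(h8 i hi _).2, Matrix.one_apply, if_neg (by simp)]
  have hone : (fun i => (A⁻¹).1 (Sum.inl k) (Sum.inl i)) ⬝ᵥ a +
      (fun i => (A⁻¹).1 (Sum.inl k) (Sum.inr i)) ⬝ᵥ c = 1 := by
    have h1 : ((A⁻¹).1 * A.1) (Sum.inl k) (Sum.inl k) = 1 := by
      have : (A⁻¹).1 * A.1 = 1 := A.inv_val
      rw [this, Matrix.one_apply_eq]
    rw [Matrix.mul_apply, Fintype.sum_sum_type] at h1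
    rw [ha, hc]
    exact h1
  have haM : ∀ i, M ^ 2 ∣ a i - (Pi.single k 1 : Fin g → ℤ) i := by
    intro i
    have h1 := hC (Sum.inl i) (Sum.inl k)
    rw [ha]
    simp only
    convert h1 using 2
    rw [Matrix.one_apply, Pi.single_apply]
    simp
  have hcM : ∀ i, M ^ 2 ∣ c i := by
    intro i
    have h1 := hC (Sum.inr i) (Sum.inl k)
    rw [Matrix.one_apply, if_neg (by simp), sub_zero] at h1
    rw [hc]
    exact h1
  obtain ⟨Y, X, Z, ⟨y1, x1, z1⟩, hdiv, hzero, e1, e2⟩ := hCOL hSYM hPRI g Jᶜ k l hk hl hkl M a c _ _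
    hM h2M ha0 hc0 hone haM hcM
  have hzero' : ∀ i j, i ∈ J → Y i j = 0 ∧ X i j = 0 ∧ Z i j = 0 := fun i j hi =>
    hzero i j (by rw [Set.mem_compl_iff, not_not]; exact hi)
  have hn : (T Z * S X * T Y).1 = (T Z).1 * (S X).1 * (T Y).1 := rfl
  have hnA : (T Z * S X * T Y * A).1 = (T Z).1 * (S X).1 * (T Y).1 * A.1 := rfl
  refine ⟨T Z * S X * T Y, ?_, ?_, ?_, ?_, ?_⟩
  · exact N.mul_mem (N.mul_mem (hN.t Z z1 fun i j => (hdiv i j).2.2)
      (hN.s X x1 fun i j => (hdiv i j).2.1)) (hN.t Y y1 fun i j => (hdiv i j).1)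
  · rw [hn]
    exact b1 g _ _ (b1 g _ _ (b5 g Z z1).2 (b5 g X x1).1) (b5 g Y y1).2
  · rw [hn]
    exact b3 g M _ _ (b3 g M _ _ (b7 g M Z fun i j => (hdiv i j).2.2).2
      (b7 g M X fun i j => (hdiv i j).2.1).1) (b7 g M Y fun i j => (hdiv i j).1).2
  · rw [hnA]
    exact fix_mul (fix_mul (fix_mul (fix_T z1 fun i j hi => (hzero' i j hi).2.2)
      (fix_S x1 fun i j hi => (hzero' i j hi).2.1)) (fix_T y1 fun i j hi => (hzero' i j hi).1)) hF
  · intro x
    have h1 : (T Z * S X * T Y * A).1 x (Sum.inl k) =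
        (((T Z).1 * (S X).1 * (T Y).1) *ᵥ (Sum.elim a c)) x := by
      have h2 : (fun y => A.1 y (Sum.inl k)) = Sum.elim a c := by
        rw [ha, hc]
        funext y
        rcases y with y | y <;> rfl
      rw [← h2, hnA, Matrix.mul_apply]
      rfl
    have hT : ∀ (W : Matrix (Fin g) (Fin g) ℤ) (p q : Fin g → ℤ),
        (T W).1 *ᵥ (Sum.elim p q) = Sum.elim p (W *ᵥ p + q) := by
      intro W p q
      show (fromBlocks 1 0 W 1 : Mat g) *ᵥ (Sum.elim p q) = _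
      rw [Matrix.fromBlocks_mulVec]
      simp
    have hS : ∀ (W : Matrix (Fin g) (Fin g) ℤ) (p q : Fin g → ℤ),
        (S W).1 *ᵥ (Sum.elim p q) = Sum.elim (p + W *ᵥ q) q := by
      intro W p q
      show (fromBlocks 1 W 0 1 : Mat g) *ᵥ (Sum.elim p q) = _
      rw [Matrix.fromBlocks_mulVec]
      simp
    rw [h1, ← Matrix.mulVec_mulVec, ← Matrix.mulVec_mulVec, hT, hS, add_comm (Y *ᵥ a) c, e1, hT,
      add_comm (Z *ᵥ _), e2]
    rcases x with x | x
    · rw [Sum.elim_inl, Matrix.one_apply, Pi.single_apply]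
      simp
    · rw [Sum.elim_inr, Matrix.one_apply]
      simp

end Pool.Agent.P8H59.JF
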